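import Pool.Agent.U33.TS.Rep

/-!
From ordered pairs to representations by `h` summands.
-/

set_option autoImplicit false

namespace Pool.Agent.U33.TS

open Finset Filter

/-- the number of ordered pairs of elements of `A` with sum `n` -/
noncomputable def pairs (A : Set ℕ) (n : ℕ) : ℕ :=
  {p : ℕ × ℕ | p.1 ∈ A ∧ p.2 ∈ A ∧ p.1 + p.2 = n}.ncard

theorem pairs_le {A : Set ℕ} {h a0 : ℕ} (hh : 2 ≤ h) (ha0 : a0 ∈ A) (n : ℕ) :
    pairs A n ≤ 2 * rep A h (n + (h - 2) * a0) := by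
  classical
  have hfin : {p : ℕ × ℕ | p.1 ∈ A ∧ p.2 ∈ A ∧ p.1 + p.2 = n}.Finite := by
    apply Set.Finite.subset (Finset.finite_toSet
      (Finset.range (n + 1) ×ˢ Finset.range (n + 1)))
    rintro p ⟨_, _, hp⟩
    rw [Finset.mem_coe, Finset.mem_product, Finset.mem_range, Finset.mem_range]
    omega
  set P := hfin.toFinset with hP
  have hPc : pairs A n = P.card := Set.ncard_eq_toFinset_card _ hfin
  let F : ℕ × ℕ → Multiset ℕ := fun p => ({p.1, p.2} : Multiset ℕ) +
    Multiset.replicate (h - 2) a0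
  have h1 : P.card ≤ 2 * (P.image F).card := by
    refine card_le_mul_card_image P 2 ?_
    intro m hm
    obtain ⟨q, hq, rfl⟩ := mem_image.1 hm
    refine le_trans (card_le_card (t := {q, (q.2, q.1)}) ?_) card_le_two
    intro p hp
    rw [mem_filter] at hp
    have h2 : ({p.1, p.2} : Multiset ℕ) = {q.1, q.2} :=
      add_right_cancel (b := Multiset.replicate (h - 2) a0) hp.2
    have h3 : p.1 ∈ ({q.1, q.2} : Multiset ℕ) := by rw [← h2]; simp
    have h4 : p.1 + p.2 = q.1 + q.2 := by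
      have := congrArg Multiset.sum h2
      simpa using this
    simp only [Multiset.insert_eq_cons, Multiset.mem_cons, Multiset.mem_singleton] at h3
    rw [mem_insert, mem_singleton]
    rcases h3 with h3 | h3
    · left
      exact Prod.ext h3 (by omega)
    · right
      exact Prod.ext h3 (by simp only; omega)
  have h2 : (P.image F).card ≤ rep A h (n + (h - 2) * a0) := by
    unfold rep
    rw [← Set.ncard_coe_finset]
    refine Set.ncard_le_ncard ?_ (finite_multisets A h _)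
    intro m hm
    rw [mem_coe, mem_image] at hm
    obtain ⟨p, hp, rfl⟩ := hm
    rw [hP, Set.Finite.mem_toFinset] at hp
    obtain ⟨h3, h4, h5⟩ := hp
    refine ⟨?_, ?_, ?_⟩
    · simp only [F, Multiset.card_add, Multiset.card_replicate, Multiset.insert_eq_cons,
        Multiset.card_cons, Multiset.card_singleton]
      omega
    · intro a ha
      simp only [F, Multiset.mem_add, Multiset.insert_eq_cons, Multiset.mem_cons,
        Multiset.mem_singleton] at ha
      rcases ha with (rfl | rfl) | ha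
      · exact h3
      · exact h4
      · rw [Multiset.eq_of_mem_replicate ha]
        exact ha0
    · simp only [F, Multiset.sum_add, Multiset.insert_eq_cons, Multiset.sum_cons,
        Multiset.sum_singleton, Multiset.sum_replicate, smul_eq_mul]
      omega
  omega

theorem basis_nonempty {A : Set ℕ} {h : ℕ} (hh : 2 ≤ h) (hA : IsAsymptoticBasis A h) :
    ∃ a, a ∈ A := by
  obtain ⟨N, hN⟩ := hA
  obtain ⟨s, h1, h2, _⟩ := hN N le_rfl
  have h3 : 0 < Multiset.card s := by omega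
  obtain ⟨a, ha⟩ := Multiset.card_pos_iff_exists_mem.1 h3
  exact ⟨a, h2 a ha⟩

theorem pairs_bounded {A : Set ℕ} {h K : ℕ} (hh : 2 ≤ h) (hA : IsAsymptoticBasis A h)
    (hK : ∀ n, rep A h n ≤ K) (n : ℕ) : pairs A n ≤ 2 * K := by
  obtain ⟨a, ha⟩ := basis_nonempty hh hA
  exact (pairs_le hh ha n).trans (Nat.mul_le_mul_left _ (hK _))

/-- sharper count -/
theorem basis_count' {A : Set ℕ} {h : ℕ} (hA : IsAsymptoticBasis A h) :
    ∃ X0 : ℕ, ∀ X, X0 ≤ X → X ≤ 2 * ((A ∩ Set.Iio X).ncard) ^ h := by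
  classical
  obtain ⟨N, hN⟩ := hA
  refine ⟨2 * N, fun X hX => ?_⟩
  have hfin : (A ∩ Set.Iio X).Finite := (Set.finite_Iio X).subset fun a ha => ha.2
  set S : Finset ℕ := hfin.toFinset with hS
  have hScard : (A ∩ Set.Iio X).ncard = S.card := Set.ncard_eq_toFinset_card _ hfin
  have h1 : ∀ m : ℕ, ∃ φ : Fin h → ℕ, (N ≤ m ∧ m < X) → ((∀ i, φ i ∈ S) ∧ ∑ i, φ i = m) := by
    intro m
    by_cases hm : N ≤ m ∧ m < X
    · obtain ⟨s, hs1, hs2, hs3⟩ := hN m hm.1
      have hlen : s.toList.length = h := by rw [Multiset.length_toList, hs1]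
      refine ⟨fun i => s.toList.get (Fin.cast hlen.symm i), fun _ => ⟨?_, ?_⟩⟩
      · intro i
        have hmem : s.toList.get (Fin.cast hlen.symm i) ∈ s := by
          rw [← Multiset.mem_toList]
          exact List.get_mem _ _
        rw [hS, Set.Finite.mem_toFinset]
        refine ⟨hs2 _ hmem, ?_⟩
        have h4 := Multiset.single_le_sum (fun _ _ => Nat.zero_le _) _ hmem
        rw [Set.mem_Iio]
        exact lt_of_le_of_lt h4 (hs3 ▸ hm.2)
      · have h2 : (s.toList).sum = m := by rw [Multiset.sum_toList, hs3]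
        have h3 : ∑ i : Fin h, s.toList.get (Fin.cast hlen.symm i)
            = ∑ i : Fin s.toList.length, s.toList.get i := by
          refine Fintype.sum_equiv (finCongr hlen.symm) _ _ fun i => ?_
          rfl
        rw [h3, ← h2]
        conv_rhs => rw [← List.ofFn_get s.toList]
        rw [List.sum_ofFn]
    · exact ⟨fun _ => 0, fun h => absurd h hm⟩
  choose φ hφ using h1
  have h2 : X - N ≤ S.card ^ h := by
    have h3 : (Finset.Ico N X).card ≤ (Fintype.piFinset (fun _ : Fin h => S)).card := by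
      refine card_le_card_of_injOn φ ?_ ?_
      · intro m hm
        rw [mem_coe, mem_Ico] at hm
        rw [mem_coe, Fintype.mem_piFinset]
        exact (hφ m hm).1
      · intro m hm m' hm' heq
        rw [mem_coe, mem_Ico] at hm hm'
        rw [← (hφ m hm).2, ← (hφ m' hm').2, heq]
    rwa [Nat.card_Ico, Fintype.card_piFinset_const] at h3
  rw [hScard]
  omega

/-- counting function of a basis: exponent form -/
theorem basis_freq {A : Set ℕ} {h : ℕ} (hh : 2 ≤ h) (hA : IsAsymptoticBasis A h) {α : ℝ}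
    (hα : α < 1 / h) : ∀ᶠ N : ℕ in atTop, (N : ℝ) ^ α ≤ ((A ∩ Set.Iio N).ncard : ℝ) := by
  obtain ⟨X0, hX0⟩ := basis_count' hA
  have hh0 : (0 : ℝ) < h := by exact_mod_cast (by omega : 0 < h)
  -- `N ^ (1 - α h) ≥ 2` eventually
  have hpos : 0 < 1 - α * h := by
    rw [lt_div_iff₀ hh0] at hα
    linarith
  have hlim : ∀ᶠ N : ℕ in atTop, (2 : ℝ) ≤ (N : ℝ) ^ (1 - α * h) :=
    ((tendsto_rpow_atTop hpos).comp tendsto_natCast_atTop_atTop).eventually_ge_atTop _
  filter_upwards [hlim, eventually_ge_atTop (X0 + 1)] with N hN1 hN2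
  have hN0 : (0 : ℝ) < N := by exact_mod_cast (by omega : 0 < N)
  have h1 : (N : ℝ) ≤ 2 * ((A ∩ Set.Iio N).ncard : ℝ) ^ h := by exact_mod_cast hX0 N (by omega)
  have h2 : ((N : ℝ) ^ α) ^ h ≤ ((A ∩ Set.Iio N).ncard : ℝ) ^ h := by
    rw [← Real.rpow_natCast ((N : ℝ) ^ α), ← Real.rpow_mul hN0.le]
    have h3 : (N : ℝ) ^ (α * h) * (N : ℝ) ^ (1 - α * h) = N := by
      rw [← Real.rpow_add hN0]
      simp
    have h4 : 0 < (N : ℝ) ^ (α * h) := by positivity
    nlinarith
  exact (pow_le_pow_iff_left₀ (by positivity) (by positivity) (by omega)).1 h2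

theorem basis_c {A : Set ℕ} {h : ℕ} (hh : 2 ≤ h) (hA : IsAsymptoticBasis A h) :
    ∀ᶠ N : ℕ in atTop, (1 / 2 : ℝ) * (N : ℝ) ^ (1 / h : ℝ) ≤ ((A ∩ Set.Iio N).ncard : ℝ) := by
  obtain ⟨X0, hX0⟩ := basis_count' hA
  have hh0 : (0 : ℝ) < h := by exact_mod_cast (by omega : 0 < h)
  filter_upwards [eventually_ge_atTop (X0 + 1)] with N hN2
  have hN0 : (0 : ℝ) < N := by exact_mod_cast (by omega : 0 < N)
  have h1 : (N : ℝ) ≤ 2 * ((A ∩ Set.Iio N).ncard : ℝ) ^ h := by exact_mod_cast hX0 N (by omega)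
  have h2 : ((1 / 2 : ℝ) * (N : ℝ) ^ (1 / h : ℝ)) ^ h ≤ ((A ∩ Set.Iio N).ncard : ℝ) ^ h := by
    rw [mul_pow, ← Real.rpow_natCast ((N : ℝ) ^ (1 / h : ℝ)), ← Real.rpow_mul hN0.le]
    have h3 : (1 / h : ℝ) * (h : ℝ) = 1 := by field_simp
    rw [h3, Real.rpow_one]
    have h4 : ((1 : ℝ) / 2) ^ h ≤ 1 / 2 := by
      calc ((1 : ℝ) / 2) ^ h ≤ ((1 : ℝ) / 2) ^ 1 :=
            pow_le_pow_of_le_one (by norm_num) (by norm_num) (by omega)
        _ = 1 / 2 := by norm_num
    nlinarith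
  exact (pow_le_pow_iff_left₀ (by positivity) (by positivity) (by omega)).1 h2

/-- growth of `pairs` gives growth of `rep` -/
theorem rep_growth {A : Set ℕ} {h : ℕ} (hh : 2 ≤ h) (hA : IsAsymptoticBasis A h) {c : ℝ}
    (hc : 0 < c) (h1 : ∃ᶠ n : ℕ in atTop, (n : ℝ) ^ c ≤ (pairs A n : ℝ)) {c' : ℝ} (hc' : c' < c) :
    ∃ᶠ n : ℕ in atTop, (n : ℝ) ^ c' ≤ (rep A h n : ℝ) := by
  obtain ⟨a, ha⟩ := basis_nonempty hh hA
  set t := (h - 2) * a with ht
  have hlim : ∀ᶠ n : ℕ in atTop, 2 * ((n + t : ℕ) : ℝ) ^ c' ≤ (n : ℝ) ^ c := by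
    rcases le_or_gt c' 0 with hneg | hpos
    · have h2 : ∀ᶠ n : ℕ in atTop, (2 : ℝ) ≤ (n : ℝ) ^ c :=
        ((tendsto_rpow_atTop hc).comp tendsto_natCast_atTop_atTop).eventually_ge_atTop _
      filter_upwards [h2, eventually_ge_atTop 1] with n hn1 hn2
      have h3 : ((n + t : ℕ) : ℝ) ^ c' ≤ 1 :=
        Real.rpow_le_one_of_one_le_of_nonpos (by exact_mod_cast (by omega : 1 ≤ n + t)) hneg
      linarith
    · have h2 : ∀ᶠ n : ℕ in atTop, (2 * 2 ^ c' : ℝ) ≤ (n : ℝ) ^ (c - c') :=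
        ((tendsto_rpow_atTop (by linarith : 0 < c - c')).comp
          tendsto_natCast_atTop_atTop).eventually_ge_atTop _
      filter_upwards [h2, eventually_ge_atTop (t + 1)] with n hn1 hn2
      have hn0 : (0 : ℝ) < n := by exact_mod_cast (by omega : 0 < n)
      have h3 : ((n + t : ℕ) : ℝ) ≤ 2 * n := by
        have : n + t ≤ 2 * n := by omega
        exact_mod_cast this
      calc 2 * ((n + t : ℕ) : ℝ) ^ c' ≤ 2 * (2 * (n : ℝ)) ^ c' :=
            mul_le_mul_of_nonneg_left (Real.rpow_le_rpow (Nat.cast_nonneg _) h3 hpos.le)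
              (by norm_num)
        _ = (2 * 2 ^ c') * (n : ℝ) ^ c' := by
            rw [Real.mul_rpow (by norm_num) hn0.le]; ring
        _ ≤ (n : ℝ) ^ (c - c') * (n : ℝ) ^ c' :=
            mul_le_mul_of_nonneg_right hn1 (by positivity)
        _ = (n : ℝ) ^ c := by rw [← Real.rpow_add hn0]; congr 1; ring
  rw [frequently_atTop]
  intro N
  obtain ⟨n, ⟨hn1, hn2⟩, hn3⟩ := ((h1.and_eventually hlim).and_eventually
    (eventually_ge_atTop N)).exists
  refine ⟨n + t, by omega, ?_⟩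
  have h2 : (pairs A n : ℝ) ≤ 2 * rep A h (n + t) := by
    exact_mod_cast pairs_le hh ha n
  linarith

end Pool.Agent.U33.TS
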