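import Pool.Agent.U33.TS.Final

/-!
Asymptotic corollaries.
-/

set_option autoImplicit false

namespace Pool.Agent.U33.TS

open Finset Filter

/-- unboundedness -/
theorem unbounded_of_tradeoff {A : Set ℕ} {h g b : ℕ} (hh : 2 ≤ h) (hg : 1 ≤ g) (hb : 2 ≤ b)
    (hcount : ∀ᶠ n : ℕ in atTop, b ^ n ≤ ((A ∩ Set.Iio (b ^ n)).ncard) ^ g)
    (hdec : ∀ ε : ℝ, 0 < ε → ∃ᶠ n : ℕ in atTop, ∃ (W T : ℕ) (σ : Equiv.Perm (Fin n))
      (M : Machine b W), n ≤ T ∧ (T : ℝ) * Real.log (T * W) ≤ ε * (n : ℝ) ^ 2 ∧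
        M.Decides σ T A) (R : ℕ) : ∃ m, R < rep A h m := by
  have hlogb : 0 < Real.log b := Real.log_pos (by exact_mod_cast hb)
  set ε : ℝ := Real.log b / (32 * (g : ℝ) ^ 2 * (R + 1)) with hε
  have hε0 : 0 < ε := by positivity
  have h1 := (hdec ε hε0).and_eventually
    (hcount.and (eventually_ge_atTop (2 * g * (R + 1))))
  obtain ⟨n, ⟨W, T, σ, M, hnT, hlog, hM⟩, hn1, hn2⟩ := h1.exists
  have hn0 : 1 ≤ n := by
    have : 0 < 2 * g * (R + 1) := by positivity
    omega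
  have hW : 1 ≤ W := by
    have := M.start.2
    omega
  have hcond : (1 * T * W) ^ (32 * g ^ 2 * (R + 1) * T) ≤ b ^ (n ^ 2) := by
    have hTW : (0 : ℝ) < (T : ℝ) * W := by
      have h2 : (0 : ℝ) < T := by exact_mod_cast (by omega : 0 < T)
      have h3 : (0 : ℝ) < W := by exact_mod_cast hW
      positivity
    have h2 : ((T : ℝ) * W) ^ (32 * g ^ 2 * (R + 1) * T) ≤ (b : ℝ) ^ (n ^ 2) := by
      have hb0 : (0 : ℝ) < b := by exact_mod_cast (by omega : 0 < b)
      rw [← Real.log_le_log_iff (by positivity) (by positivity), Real.log_pow, Real.log_pow]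
      push_cast
      calc 32 * (g : ℝ) ^ 2 * (R + 1) * T * Real.log (T * W)
          = 32 * (g : ℝ) ^ 2 * (R + 1) * (T * Real.log (T * W)) := by ring
        _ ≤ 32 * (g : ℝ) ^ 2 * (R + 1) * (ε * (n : ℝ) ^ 2) :=
            mul_le_mul_of_nonneg_left hlog (by positivity)
        _ = (n : ℝ) ^ 2 * Real.log b := by
            rw [hε]
            have : (32 * (g : ℝ) ^ 2 * (R + 1)) ≠ 0 := by positivity
            field_simp
    rw [one_mul]
    exact_mod_cast h2
  obtain ⟨m, _, hm⟩ := many_general hh hg hb M σ (fun d hd => (hM d).1 hd) hn1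
    (count_decides hM) hn2 hnT hcond
  exact ⟨m, lt_of_lt_of_le (Nat.lt_pow_self (by norm_num)) hm⟩

/-- power growth for oblivious machines with boundedly many states and passes -/
theorem growth_of_oblivious {h g b W p : ℕ} (hh : 2 ≤ h) (hg : 1 ≤ g) (hb : 2 ≤ b) :
    ∃ c : ℝ, 0 < c ∧ ∀ A : Set ℕ,
      (∀ᶠ n : ℕ in atTop, b ^ n ≤ ((A ∩ Set.Iio (b ^ n)).ncard) ^ g) →
      (∃ᶠ n : ℕ in atTop, ∃ (T : ℕ) (σ : Equiv.Perm (Fin n)) (M : Machine b W),
        n ≤ T ∧ T ≤ p * n ∧ M.Oblivious ∧ M.Decides σ T A) →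
      ∃ᶠ m : ℕ in atTop, (m : ℝ) ^ c ≤ (rep A h m : ℝ) := by
  have hlogb : 0 < Real.log b := Real.log_pos (by exact_mod_cast hb)
  have hlog2 : 0 < Real.log 2 := Real.log_pos (by norm_num)
  set D : ℕ := 16 * g ^ 2 * p * W + 2 * g with hD
  have hD1 : 1 ≤ D := by omega
  have hDr : (0 : ℝ) < D := by exact_mod_cast hD1
  set c : ℝ := Real.log 2 / (2 * D * Real.log b) with hc
  have hc0 : 0 < c := by positivity
  refine ⟨c, hc0, fun A hcount hdec => ?_⟩
  rw [frequently_atTop]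
  intro N0
  -- a bound for the values below `N0`
  set B : ℕ := ∑ m ∈ range N0, rep A h m with hB
  have hlim : ∀ᶠ n : ℕ in atTop, c * Real.log h ≤ ((n : ℝ) / (2 * D) - 2) * Real.log 2 := by
    have h1 : Tendsto (fun n : ℕ => ((n : ℝ) / (2 * D) - 2) * Real.log 2) atTop atTop := by
      refine Tendsto.atTop_mul_const hlog2 ?_
      refine tendsto_atTop_add_const_right _ _ ?_
      exact tendsto_natCast_atTop_atTop.atTop_div_const (by positivity)
    exact h1.eventually_ge_atTop _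
  obtain ⟨n, ⟨T, σ, M, hnT, hTp, hMo, hM⟩, hn1, hn2, hn3⟩ :=
    (hdec.and_eventually (hcount.and (hlim.and (eventually_ge_atTop (D * (B + 2)))))).exists
  have hW : 1 ≤ W := by
    have := M.start.2
    omega
  have hnD : D ≤ n := by nlinarith
  set f : ℕ := n / D - 1 with hf
  have hfD1 : 1 ≤ n / D := by
    rw [Nat.le_div_iff_mul_le (by omega)]
    omega
  have hfD : (f + 1) * D ≤ n := by
    have : f + 1 = n / D := by omega
    rw [this]
    exact Nat.div_mul_le_self _ _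
  have h2g : 2 * g * (f + 1) ≤ n := by
    calc 2 * g * (f + 1) ≤ D * (f + 1) := Nat.mul_le_mul_right _ (by omega)
      _ = (f + 1) * D := by ring
      _ ≤ n := hfD
  have hcond : (1 * W) ^ (16 * g ^ 2 * (f + 1) * T) ≤ b ^ (n ^ 2) := by
    have h1 : W ≤ b ^ W := (Nat.lt_pow_self (by omega)).le
    calc (1 * W) ^ (16 * g ^ 2 * (f + 1) * T) = W ^ (16 * g ^ 2 * (f + 1) * T) := by rw [one_mul]
      _ ≤ (b ^ W) ^ (16 * g ^ 2 * (f + 1) * T) := Nat.pow_le_pow_left h1 _
      _ = b ^ (W * (16 * g ^ 2 * (f + 1) * T)) := by rw [← pow_mul]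
      _ ≤ b ^ (n ^ 2) := by
        refine Nat.pow_le_pow_right (by omega) ?_
        calc W * (16 * g ^ 2 * (f + 1) * T) ≤ W * (16 * g ^ 2 * (f + 1) * (p * n)) :=
              Nat.mul_le_mul_left _ (Nat.mul_le_mul_left _ hTp)
          _ = (f + 1) * (16 * g ^ 2 * p * W) * n := by ring
          _ ≤ (f + 1) * D * n := Nat.mul_le_mul_right _ (Nat.mul_le_mul_left _ (by omega))
          _ ≤ n * n := Nat.mul_le_mul_right _ hfD
          _ = n ^ 2 := by ring
  obtain ⟨m, hm1, hm2⟩ := many_oblivious hh hg hb M σ hMo (fun d hd => (hM d).1 hd) hn1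
    (count_decides hM) h2g hnT hcond
  have hBf : B < 2 ^ f := by
    have h1 : B + 2 ≤ n / D := by
      rw [Nat.le_div_iff_mul_le (by omega)]
      calc (B + 2) * D = D * (B + 2) := by ring
        _ ≤ n := hn3
    exact lt_of_lt_of_le (by omega : B < f) (Nat.lt_pow_self (by norm_num)).le
  have hmN : N0 ≤ m := by
    by_contra hlt
    have h1 : rep A h m ≤ B := by
      rw [hB]
      exact single_le_sum (f := fun m => rep A h m) (fun _ _ => Nat.zero_le _)
        (mem_range.2 (by omega))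
    omega
  refine ⟨m, hmN, ?_⟩
  have hh0 : (0 : ℝ) < h := by exact_mod_cast (by omega : 0 < h)
  have hb0 : (0 : ℝ) < b := by exact_mod_cast (by omega : 0 < b)
  have h3 : (m : ℝ) ≤ h * (b : ℝ) ^ n := by exact_mod_cast hm1.le
  have h4 : (2 : ℝ) ^ f ≤ rep A h m := by exact_mod_cast hm2
  refine le_trans ?_ h4
  have h5 : (m : ℝ) ^ c ≤ (h * (b : ℝ) ^ n) ^ c := Real.rpow_le_rpow (Nat.cast_nonneg _) h3 hc0.le
  refine h5.trans ?_
  have hX : (0 : ℝ) < h * (b : ℝ) ^ n := by positivity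
  rw [← Real.log_le_log_iff (by positivity) (by positivity), Real.log_rpow hX, Real.log_pow,
    Real.log_mul (by positivity) (by positivity), Real.log_pow]
  have h6 : (n : ℝ) / D - 2 ≤ f := by
    have h7 : (n : ℝ) / D < (n / D : ℕ) + 1 := by
      rw [div_lt_iff₀ hDr]
      have := Nat.lt_mul_div_succ n (by omega : 0 < D)
      have h8 : (n : ℝ) < D * ((n / D : ℕ) + 1) := by exact_mod_cast this
      linarith
    have h8 : (f : ℝ) = (n / D : ℕ) - 1 := by
      rw [hf, Nat.cast_sub hfD1, Nat.cast_one]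
    rw [h8]
    linarith
  have h7 : c * (n * Real.log b) = (n : ℝ) / (2 * D) * Real.log 2 := by
    rw [hc]
    field_simp
  calc c * (Real.log h + n * Real.log b) = c * Real.log h + c * (n * Real.log b) := by ring
    _ ≤ ((n : ℝ) / (2 * D) - 2) * Real.log 2 + (n : ℝ) / (2 * D) * Real.log 2 := by
        rw [h7]; linarith
    _ = ((n : ℝ) / D - 2) * Real.log 2 := by
        field_simp
        ring
    _ ≤ f * Real.log 2 := mul_le_mul_of_nonneg_right h6 hlog2.le

theorem eventually_count {A : Set ℕ} {h b : ℕ} (hb : 2 ≤ b) (hA : IsAsymptoticBasis A h) :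
    ∀ᶠ n : ℕ in atTop, b ^ n ≤ ((A ∩ Set.Iio (b ^ n)).ncard) ^ (h + 1) := by
  obtain ⟨X0, hX0⟩ := basis_count hA
  filter_upwards [eventually_ge_atTop X0] with n hn
  exact hX0 _ (hn.trans (Nat.lt_pow_self (by omega)).le)

end Pool.Agent.U33.TS
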