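import Pool.Agent.U33.TS.Machine

/-!
Counting signatures.
-/

set_option autoImplicit false

namespace Pool.Agent.U33.TS

open Finset

variable {b W n : ℕ}

/-- the place at which two neighbouring cells are separated, modulo `l` -/
def off (n l : ℕ) (z z' : ℤ) : ℕ := (max (min z.toNat (n - 1)) (min z'.toNat (n - 1))) % l

theorem off_of_ne {l o : ℕ} (ho : o < l) {z z' : ℤ} (hz : |z' - z| ≤ 1)
    (hne : blk n l o z' ≠ blk n l o z) : off n l z z' = o ∧ 0 ≤ z' ∧ z' < n := by
  have h1 := abs_le.1 hz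
  have key : ∀ m : ℕ, (m + 1 + (l - o)) / l ≠ (m + (l - o)) / l → (m + 1) % l = o := by
    intro m hm
    have h2 : l ∣ m + (l - o) + 1 := by
      by_contra hcon
      apply hm
      have h3 := Nat.succ_div_of_not_dvd hcon
      rw [show m + 1 + (l - o) = m + (l - o) + 1 by ring]
      exact h3
    obtain ⟨k, hk⟩ := h2
    have h4 : m + 1 + l = l * k + o := by omega
    have h5 : (m + 1 + l) % l = (l * k + o) % l := by rw [h4]
    rwa [Nat.add_mod_right, Nat.mul_add_mod, Nat.mod_eq_of_lt ho] at h5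
  have hne' : min z'.toNat (n - 1) ≠ min z.toNat (n - 1) := by
    intro h
    apply hne
    unfold blk
    rw [h]
  unfold blk at hne
  unfold off
  rcases Nat.lt_or_gt_of_ne hne' with h | h
  · have h2 : min z.toNat (n - 1) = min z'.toNat (n - 1) + 1 := by omega
    rw [h2] at hne ⊢
    refine ⟨?_, by omega, by omega⟩
    rw [max_eq_left (by omega)]
    exact key _ hne.symm
  · have h2 : min z'.toNat (n - 1) = min z.toNat (n - 1) + 1 := by omega
    rw [h2] at hne ⊢
    refine ⟨?_, by omega, by omega⟩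
    rw [max_eq_right (by omega)]
    exact key _ hne

/-- some offset leads to few passages -/
theorem exists_offset {l T : ℕ} (hl : 1 ≤ l) (p : ℕ → ℤ) (hp : ∀ t < T, |p (t + 1) - p t| ≤ 1) :
    ∃ o < l, ((range T).filter (fun t => blk n l o (p (t + 1)) ≠ blk n l o (p t))).card
      ≤ T / l := by
  have h1 : (range T).card < (range l).card * (T / l + 1) := by
    rw [card_range, card_range]
    exact Nat.lt_mul_div_succ T (by omega)
  obtain ⟨o, ho, h2⟩ := exists_card_fiber_lt_of_card_lt_mul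
    (f := fun t => off n l (p t) (p (t + 1))) h1
  rw [mem_range] at ho
  refine ⟨o, ho, ?_⟩
  refine le_trans (card_le_card ?_) (Nat.lt_succ_iff.1 h2)
  intro t ht
  rw [mem_filter, mem_range] at ht ⊢
  exact ⟨ht.1, (off_of_ne ho (hp t ht.1) ht.2).1⟩

theorem card_subsets {α : Type*} [DecidableEq α] (U : Finset α) (k : ℕ) :
    (U.powerset.filter (fun s => s.card ≤ k)).card ≤ (U.card + 1) ^ k := by
  classical
  have h1 : (Fintype.piFinset (fun _ : Fin k => insertNone U)).card = (U.card + 1) ^ k := by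
    rw [Fintype.card_piFinset_const, card_insertNone]
  rw [← h1]
  refine card_le_card_of_surjOn (fun φ => eraseNone (univ.image φ)) ?_
  intro s hs
  rw [mem_coe, mem_filter, mem_powerset] at hs
  refine ⟨fun i => s.toList[(i : ℕ)]?, ?_, ?_⟩
  · rw [mem_coe, Fintype.mem_piFinset]
    intro i
    rw [mem_insertNone]
    intro a ha
    have h2 : a ∈ s.toList := by
      rw [Option.mem_def] at ha
      exact List.mem_of_getElem? ha
    exact hs.1 (mem_toList.1 h2)
  · ext a
    simp only [mem_eraseNone, mem_image, mem_univ, true_and]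
    constructor
    · rintro ⟨i, hi⟩
      exact mem_toList.1 (List.mem_of_getElem? hi)
    · intro ha
      obtain ⟨i, hi, h2⟩ := List.getElem_of_mem (mem_toList.2 ha)
      refine ⟨⟨i, ?_⟩, ?_⟩
      · rw [length_toList] at hi
        omega
      · simp only
        rw [List.getElem?_eq_getElem hi, h2]

theorem dblk_card (hn : 1 ≤ n) {l o : ℕ} (hl : 1 ≤ l) (σ : Equiv.Perm (Fin n)) (j : ℕ) :
    (univ.filter (fun i => dblk n l o σ i = j)).card ≤ l := by
  refine le_trans (card_le_card_of_injOn (t := range l)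
    (fun i => ((σ.symm i : ℕ) + (l - o)) % l) ?_ ?_) (card_range l).le
  · intro i _
    rw [mem_coe, mem_range]
    exact Nat.mod_lt _ (by omega)
  · intro i hi i' hi' heq
    rw [mem_coe, mem_filter] at hi hi'
    have h1 := hi.2
    have h2 := hi'.2
    simp only at heq
    unfold dblk blk at h1 h2
    rw [Int.toNat_natCast, min_eq_left (by have := (σ.symm i).2; omega)] at h1
    rw [Int.toNat_natCast, min_eq_left (by have := (σ.symm i').2; omega)] at h2
    have h3 : (σ.symm i : ℕ) + (l - o) = (σ.symm i' : ℕ) + (l - o) := by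
      rw [← Nat.div_add_mod ((σ.symm i : ℕ) + (l - o)) l,
        ← Nat.div_add_mod ((σ.symm i' : ℕ) + (l - o)) l, heq, h1, h2]
    have h4 : (σ.symm i : ℕ) = (σ.symm i' : ℕ) := by omega
    exact σ.symm.injective (Fin.ext h4)

/-- The basic estimate: if the accepted strings are covered by few classes, then there are many
representations. -/
theorem rep_of_cover {A : Set ℕ} {h T l f : ℕ} (hh : 2 ≤ h) (hb : 1 ≤ b) (hn : 1 ≤ n) (hl : 1 ≤ l)
    (M : Machine b W) (σ : Equiv.Perm (Fin n)) (hA : ∀ d, M.Accepts σ T d → val d ∈ A)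
    (I : Finset (ℕ × Finset (ℕ × Fin W × ℤ)))
    (hcov : ∀ d, M.Accepts σ T d → ∃ x ∈ I, d ∈ Cls M σ T l x.1 x.2)
    (hI : I.card * b ^ (l * f) < {d | M.Accepts σ T d}.ncard) :
    ∃ m' < h * b ^ n, 2 ^ f ≤ rep A h m' := by
  classical
  have h1 : ∃ x ∈ I, b ^ (l * f) < (Cls M σ T l x.1 x.2).ncard := by
    by_contra hcon
    push Not at hcon
    have h2 : {d | M.Accepts σ T d} ⊆ ⋃ x ∈ I, Cls M σ T l x.1 x.2 := by
      intro d hd
      obtain ⟨x, hx, hx'⟩ := hcov d hd
      exact Set.mem_biUnion hx hx'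
    have h3 : {d | M.Accepts σ T d}.ncard ≤ ∑ x ∈ I, (Cls M σ T l x.1 x.2).ncard := by
      refine (Set.ncard_le_ncard h2 (Set.toFinite _)).trans ?_
      exact Finset.set_ncard_biUnion_le I _
    have h4 : ∑ x ∈ I, (Cls M σ T l x.1 x.2).ncard ≤ I.card * b ^ (l * f) := by
      rw [← smul_eq_mul]
      exact sum_le_card_nsmul _ _ _ hcon
    omega
  obtain ⟨x, _, hx⟩ := h1
  obtain ⟨m, P, hP1, hP2, hP3⟩ := cube hb (dblk n l x.1 σ) (Cls M σ T l x.1 x.2)
    (fun u hu v hv j => cls_mix M σ T l x.1 x.2 u v hu hv j) l f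
    (fun j => dblk_card hn hl σ j) hx
  have hcls : ∀ d ∈ Cls M σ T l x.1 x.2, val d ∈ A := by
    rintro d ⟨q, p, c, h2, -⟩
    exact hA d ⟨q, p, c, h2⟩
  refine rep_of_pairs (m := m) hh P (fun u hu => hcls u (hP1 u hu)) hP2 ?_
  intro u hu
  obtain ⟨v, hv, h2, h3⟩ := hP3 u hu
  exact ⟨v, hcls v hv, h2, h3⟩

/-- general machines -/
theorem rep_general {A : Set ℕ} {h T l f : ℕ} (hh : 2 ≤ h) (hb : 1 ≤ b) (hn : 1 ≤ n) (hl : 1 ≤ l)
    (M : Machine b W) (σ : Equiv.Perm (Fin n)) (hA : ∀ d, M.Accepts σ T d → val d ∈ A)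
    (hI : l * (T * W * n + 1) ^ (T / l) * b ^ (l * f) < {d | M.Accepts σ T d}.ncard) :
    ∃ m' < h * b ^ n, 2 ^ f ≤ rep A h m' := by
  classical
  set U : Finset (ℕ × Fin W × ℤ) := range T ×ˢ univ ×ˢ Ico (0 : ℤ) n with hU
  have hUcard : U.card = T * W * n := by
    rw [hU, card_product, card_product, card_range, card_univ, Fintype.card_fin, Int.card_Ico]
    simp [mul_assoc]
  refine rep_of_cover hh hb hn hl M σ hA
    (range l ×ˢ (U.powerset.filter (fun s => s.card ≤ T / l))) ?_ ?_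
  · rintro d ⟨q, p, c, hc⟩
    have hp : ∀ t < T, |p (t + 1) - p t| ≤ 1 := fun t ht =>
      M.near _ _ _ _ _ _ _ (hc.2.2.2.2 t ht).1
    obtain ⟨o, ho, hcard⟩ := exists_offset (n := n) hl p hp
    refine ⟨(o, sgn l o n T q p), ?_, q, p, c, hc, rfl⟩
    rw [mem_product, mem_range, mem_filter, mem_powerset]
    refine ⟨ho, ?_, le_trans card_image_le hcard⟩
    intro x hx
    obtain ⟨h1, h2, h3, h4⟩ := mem_sgn.1 hx
    have h5 := off_of_ne ho (hp x.1 h1) h2
    rw [hU, mem_product, mem_product, mem_range, mem_Ico]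
    exact ⟨h1, mem_univ _, by rw [h4]; exact h5.2.1, by rw [h4]; exact h5.2.2⟩
  · refine lt_of_le_of_lt ?_ hI
    rw [card_product, card_range]
    have h1 := card_subsets U (T / l)
    rw [hUcard] at h1
    exact Nat.mul_le_mul_right _ (Nat.mul_le_mul_left _ h1)

/-- the head movement is fixed in advance -/
def Machine.Oblivious (M : Machine b W) : Prop :=
  ∃ P : ℕ → ℤ, ∀ t z q a q' a' z', M.step t z q a q' a' z' → z' = P t

/-- oblivious machines -/
theorem rep_oblivious {A : Set ℕ} {h T l f : ℕ} (hh : 2 ≤ h) (hb : 1 ≤ b) (hn : 1 ≤ n)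
    (hl : 1 ≤ l) (hW : 1 ≤ W)
    (M : Machine b W) (σ : Equiv.Perm (Fin n)) (hA : ∀ d, M.Accepts σ T d → val d ∈ A)
    (hM : M.Oblivious)
    (hI : W ^ (T / l) * b ^ (l * f) < {d | M.Accepts σ T d}.ncard) :
    ∃ m' < h * b ^ n, 2 ^ f ≤ rep A h m' := by
  classical
  obtain ⟨P, hP⟩ := hM
  have hne : {d | M.Accepts σ T d}.Nonempty := by
    rw [← Set.ncard_pos]
    omega
  obtain ⟨d0, q0, p0, c0, hc0⟩ := hne
  have hp0 : ∀ t < T, |p0 (t + 1) - p0 t| ≤ 1 := fun t ht =>
    M.near _ _ _ _ _ _ _ (hc0.2.2.2.2 t ht).1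
  obtain ⟨o, ho, hcard⟩ := exists_offset (n := n) hl p0 hp0
  set X : Finset ℕ := (range T).filter (fun t => blk n l o (p0 (t + 1)) ≠ blk n l o (p0 t)) with hX
  have hpos : ∀ d q p c, M.IsComp σ T d q p c → ∀ t, t ≤ T → p t = p0 t := by
    intro d q p c hc t ht
    cases t with
    | zero => rw [hc.2.1, hc0.2.1]
    | succ t =>
      rw [hP _ _ _ _ _ _ _ (hc.2.2.2.2 t (by omega)).1,
        hP _ _ _ _ _ _ _ (hc0.2.2.2.2 t (by omega)).1]
  let g : (X → Fin W) → Finset (ℕ × Fin W × ℤ) := fun ψ =>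
    univ.image (fun t : X => ((t : ℕ), ψ t, p0 ((t : ℕ) + 1)))
  refine rep_of_cover hh hb hn hl M σ hA (univ.image (fun ψ => (o, g ψ))) ?_ ?_
  · rintro d ⟨q, p, c, hc⟩
    have hp := hpos d q p c hc
    refine ⟨(o, g (fun t => q ((t : ℕ) + 1))), mem_image_of_mem _ (mem_univ _), q, p, c, hc, ?_⟩
    ext ⟨t, r, z⟩
    rw [mem_sgn]
    simp only [g, mem_image, mem_univ, true_and, Subtype.exists, hX, mem_filter, mem_range]
    constructor
    · rintro ⟨h1, h2, h3, h4⟩
      rw [hp t h1.le, hp (t + 1) h1] at h2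
      refine ⟨t, ⟨h1, h2⟩, ?_⟩
      rw [h3, h4, hp (t + 1) h1]
    · rintro ⟨t', ⟨h1, h2⟩, h3⟩
      rw [Prod.mk.injEq, Prod.mk.injEq] at h3
      obtain ⟨rfl, h4, h5⟩ := h3
      refine ⟨h1, ?_, h4.symm, ?_⟩
      · rw [hp t' h1.le, hp (t' + 1) h1]
        exact h2
      · rw [← h5, hp (t' + 1) h1]
  · refine lt_of_le_of_lt ?_ hI
    refine Nat.mul_le_mul_right _ ?_
    refine card_image_le.trans ?_
    rw [card_univ, Fintype.card_fun, Fintype.card_fin, Fintype.card_coe]
    exact Nat.pow_le_pow_right hW hcard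

end Pool.Agent.U33.TS
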