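import Pool.Agent.U33.TS.Count

/-!
The estimates for sets with many elements and for asymptotic bases.
-/

set_option autoImplicit false

namespace Pool.Agent.U33.TS

open Finset

variable {b W n : ℕ}

/-- arithmetic for general machines -/
theorem arith_general {g f T K S a e : ℕ} (hb : 2 ≤ b) (hg : 1 ≤ g) (hn : 2 * g * (f + 1) ≤ n)
    (hT : n ≤ T) (hn2 : 2 ≤ n) (hK : a ≤ K * e) (ha : b ^ n ≤ a ^ g)
    (hS : S = n / (2 * g * (f + 1)) * (T * W * n + 1) ^ (T / (n / (2 * g * (f + 1)))) *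
      b ^ (n / (2 * g * (f + 1)) * f))
    (hcond : (K * T * W) ^ (32 * g ^ 2 * (f + 1) * T) ≤ b ^ (n ^ 2)) (hW : 1 ≤ W) : S < e := by
  by_contra hcon
  have hSe : e ≤ S := not_lt.1 hcon
  set l := n / (2 * g * (f + 1)) with hl
  set k := T / l with hk
  have hpos : 0 < 2 * g * (f + 1) := by positivity
  have hl1 : 1 ≤ l := by
    rw [hl, Nat.le_div_iff_mul_le hpos]
    omega
  have hln : l * (2 * g * (f + 1)) ≤ n := Nat.div_mul_le_self _ _
  have hln' : n ≤ 2 * (l * (2 * g * (f + 1))) := by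
    have h1 := Nat.lt_mul_div_succ n hpos
    rw [← hl] at h1
    have h2 : 2 * g * (f + 1) * (l + 1) ≤ 2 * g * (f + 1) * (2 * l) :=
      Nat.mul_le_mul_left _ (by omega)
    calc n ≤ 2 * g * (f + 1) * (l + 1) := h1.le
      _ ≤ 2 * g * (f + 1) * (2 * l) := h2
      _ = 2 * (l * (2 * g * (f + 1))) := by ring
  have hkn : k * n ≤ 4 * g * (f + 1) * T := by
    have h1 : k * l ≤ T := Nat.div_mul_le_self _ _
    calc k * n ≤ k * (2 * (l * (2 * g * (f + 1)))) := Nat.mul_le_mul_left _ hln'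
      _ = (k * l) * (4 * g * (f + 1)) := by ring
      _ ≤ T * (4 * g * (f + 1)) := Nat.mul_le_mul_right _ h1
      _ = 4 * g * (f + 1) * T := by ring
  have hlT : l ≤ T := by
    have : l ≤ l * (2 * g * (f + 1)) := Nat.le_mul_of_pos_right _ hpos
    omega
  have hK1 : 1 ≤ K := by
    rcases Nat.eq_zero_or_pos K with h0 | h0
    · rw [h0, zero_mul] at hK
      have : a = 0 := by omega
      rw [this, zero_pow (by omega)] at ha
      have : 0 < b ^ n := by positivity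
      omega
    · exact h0
  have hZ : 2 ≤ K * T * W := by
    calc 2 ≤ T := by omega
      _ = 1 * T * 1 := by ring
      _ ≤ K * T * W := Nat.mul_le_mul (Nat.mul_le_mul_right _ hK1) hW
  -- main chain
  have h1 : b ^ n ≤ (K * S) ^ g := ha.trans (Nat.pow_le_pow_left (hK.trans
    (Nat.mul_le_mul_left _ hSe)) g)
  have h2 : b ^ n * b ^ n ≤ (K * l * (T * W * n + 1) ^ k) ^ (2 * g) * b ^ n := by
    calc b ^ n * b ^ n ≤ (K * S) ^ g * (K * S) ^ g := Nat.mul_le_mul h1 h1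
      _ = (K * S) ^ (2 * g) := by rw [← pow_add]; congr 1; ring
      _ = (K * l * (T * W * n + 1) ^ k) ^ (2 * g) * b ^ (l * f * (2 * g)) := by
        rw [hS, pow_mul b (l * f) (2 * g), ← mul_pow]
        congr 1
        ring
      _ ≤ (K * l * (T * W * n + 1) ^ k) ^ (2 * g) * b ^ n := by
        refine Nat.mul_le_mul_left _ (Nat.pow_le_pow_right (by omega) ?_)
        calc l * f * (2 * g) ≤ l * (2 * g * (f + 1)) := by
              nlinarith [Nat.zero_le (l * g)]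
          _ ≤ n := hln
  have h3 : b ^ n ≤ (K * l * (T * W * n + 1) ^ k) ^ (2 * g) :=
    Nat.le_of_mul_le_mul_right h2 (by positivity)
  have h4 : b ^ (n ^ 2) ≤ (K * l) ^ (2 * g * n) * (T * W * n + 1) ^ (2 * g * (k * n)) := by
    calc b ^ (n ^ 2) = (b ^ n) ^ n := by rw [← pow_mul, sq]
      _ ≤ ((K * l * (T * W * n + 1) ^ k) ^ (2 * g)) ^ n := Nat.pow_le_pow_left h3 n
      _ = (K * l) ^ (2 * g * n) * (T * W * n + 1) ^ (2 * g * (k * n)) := by
        rw [← pow_mul, mul_pow, ← pow_mul]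
        congr 2
        ring
  have h5 : K * l ≤ K * T * W := by
    calc K * l ≤ K * T := Nat.mul_le_mul_left _ hlT
      _ = K * T * 1 := by ring
      _ ≤ K * T * W := Nat.mul_le_mul_left _ hW
  have h6 : T * W * n + 1 ≤ (K * T * W) ^ 3 := by
    have h7 : T * W ≤ K * T * W := by
      calc T * W = 1 * (T * W) := by ring
        _ ≤ K * (T * W) := Nat.mul_le_mul_right _ hK1
        _ = K * T * W := by ring
    have h8 : n ≤ K * T * W := by
      calc n ≤ T := hT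
        _ = T * 1 := by ring
        _ ≤ T * W := Nat.mul_le_mul_left _ hW
        _ ≤ _ := h7
    have h9 : T * W * n ≤ (K * T * W) ^ 2 := by
      rw [sq]; exact Nat.mul_le_mul h7 h8
    have h10 : 1 ≤ (K * T * W) ^ 2 := Nat.one_le_pow _ _ (by omega)
    calc T * W * n + 1 ≤ (K * T * W) ^ 2 * 2 := by omega
      _ ≤ (K * T * W) ^ 2 * (K * T * W) := Nat.mul_le_mul_left _ hZ
      _ = (K * T * W) ^ 3 := by ring
  have h7 : b ^ (n ^ 2) ≤ (K * T * W) ^ (2 * g * n + 3 * (2 * g * (k * n))) := by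
    calc b ^ (n ^ 2) ≤ _ := h4
      _ ≤ (K * T * W) ^ (2 * g * n) * ((K * T * W) ^ 3) ^ (2 * g * (k * n)) :=
        Nat.mul_le_mul (Nat.pow_le_pow_left h5 _) (Nat.pow_le_pow_left h6 _)
      _ = _ := by rw [← pow_mul, ← pow_add]
  have h8 : 2 * g * n + 3 * (2 * g * (k * n)) < 32 * g ^ 2 * (f + 1) * T := by
    have h9 : 2 * g * n ≤ 2 * g ^ 2 * (f + 1) * T := by
      have h10 : 2 * g * n ≤ 2 * g * T := Nat.mul_le_mul_left _ hT
      have h11 : 2 * g * T * 1 ≤ 2 * g * T * (g * (f + 1)) :=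
        Nat.mul_le_mul_left _ (Nat.mul_pos hg (by omega))
      calc 2 * g * n ≤ 2 * g * T * 1 := by omega
        _ ≤ 2 * g * T * (g * (f + 1)) := h11
        _ = 2 * g ^ 2 * (f + 1) * T := by ring
    have h10 : 3 * (2 * g * (k * n)) ≤ 24 * g ^ 2 * (f + 1) * T := by
      calc 3 * (2 * g * (k * n)) ≤ 3 * (2 * g * (4 * g * (f + 1) * T)) :=
            Nat.mul_le_mul_left _ (Nat.mul_le_mul_left _ hkn)
        _ = 24 * g ^ 2 * (f + 1) * T := by ring
    have h11 : 0 < g ^ 2 * (f + 1) * T := by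
      have : 0 < T := by omega
      positivity
    nlinarith
  have h9 : (K * T * W) ^ (2 * g * n + 3 * (2 * g * (k * n))) <
      (K * T * W) ^ (32 * g ^ 2 * (f + 1) * T) := Nat.pow_lt_pow_right hZ h8
  omega

/-- arithmetic for oblivious machines -/
theorem arith_oblivious {g f T K S a e : ℕ} (hb : 2 ≤ b) (hg : 1 ≤ g)
    (hn : 2 * g * (f + 1) ≤ n) (hT : n ≤ T) (hK : a ≤ K * e) (ha : b ^ n ≤ a ^ g)
    (hS : S = W ^ (T / (n / (2 * g * (f + 1)))) * b ^ (n / (2 * g * (f + 1)) * f))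
    (hcond : (K * W) ^ (16 * g ^ 2 * (f + 1) * T) ≤ b ^ (n ^ 2)) (hW : 1 ≤ W) : S < e := by
  by_contra hcon
  have hSe : e ≤ S := not_lt.1 hcon
  set l := n / (2 * g * (f + 1)) with hl
  set k := T / l with hk
  have hpos : 0 < 2 * g * (f + 1) := by positivity
  have hl1 : 1 ≤ l := by
    rw [hl, Nat.le_div_iff_mul_le hpos]
    omega
  have hn1 : 1 ≤ n := by omega
  have hln : l * (2 * g * (f + 1)) ≤ n := Nat.div_mul_le_self _ _
  have hln' : n ≤ 2 * (l * (2 * g * (f + 1))) := by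
    have h1 := Nat.lt_mul_div_succ n hpos
    rw [← hl] at h1
    have h2 : 2 * g * (f + 1) * (l + 1) ≤ 2 * g * (f + 1) * (2 * l) :=
      Nat.mul_le_mul_left _ (by omega)
    calc n ≤ 2 * g * (f + 1) * (l + 1) := h1.le
      _ ≤ 2 * g * (f + 1) * (2 * l) := h2
      _ = 2 * (l * (2 * g * (f + 1))) := by ring
  have hkn : k * n ≤ 4 * g * (f + 1) * T := by
    have h1 : k * l ≤ T := Nat.div_mul_le_self _ _
    calc k * n ≤ k * (2 * (l * (2 * g * (f + 1)))) := Nat.mul_le_mul_left _ hln'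
      _ = (k * l) * (4 * g * (f + 1)) := by ring
      _ ≤ T * (4 * g * (f + 1)) := Nat.mul_le_mul_right _ h1
      _ = 4 * g * (f + 1) * T := by ring
  have hK1 : 1 ≤ K := by
    rcases Nat.eq_zero_or_pos K with h0 | h0
    · rw [h0, zero_mul] at hK
      have : a = 0 := by omega
      rw [this, zero_pow (by omega)] at ha
      have : 0 < b ^ n := by positivity
      omega
    · exact h0
  have h1 : b ^ n ≤ (K * S) ^ g := ha.trans (Nat.pow_le_pow_left (hK.trans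
    (Nat.mul_le_mul_left _ hSe)) g)
  have h2 : b ^ n * b ^ n ≤ (K * W ^ k) ^ (2 * g) * b ^ n := by
    calc b ^ n * b ^ n ≤ (K * S) ^ g * (K * S) ^ g := Nat.mul_le_mul h1 h1
      _ = (K * S) ^ (2 * g) := by rw [← pow_add]; congr 1; ring
      _ = (K * W ^ k) ^ (2 * g) * b ^ (l * f * (2 * g)) := by
        rw [hS, pow_mul b (l * f) (2 * g), ← mul_pow]
        congr 1
        ring
      _ ≤ (K * W ^ k) ^ (2 * g) * b ^ n := by
        refine Nat.mul_le_mul_left _ (Nat.pow_le_pow_right (by omega) ?_)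
        calc l * f * (2 * g) ≤ l * (2 * g * (f + 1)) := by
              nlinarith [Nat.zero_le (l * g)]
          _ ≤ n := hln
  have h3 : b ^ n ≤ (K * W ^ k) ^ (2 * g) :=
    Nat.le_of_mul_le_mul_right h2 (by positivity)
  have h4 : b ^ (n ^ 2) ≤ K ^ (2 * g * n) * W ^ (2 * g * (k * n)) := by
    calc b ^ (n ^ 2) = (b ^ n) ^ n := by rw [← pow_mul, sq]
      _ ≤ ((K * W ^ k) ^ (2 * g)) ^ n := Nat.pow_le_pow_left h3 n
      _ = K ^ (2 * g * n) * W ^ (2 * g * (k * n)) := by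
        rw [← pow_mul, mul_pow, ← pow_mul]
        congr 2
        ring
  have h5 : 2 * g * n ≤ 8 * g ^ 2 * (f + 1) * T := by
    have h10 : 2 * g * n ≤ 2 * g * T := Nat.mul_le_mul_left _ hT
    have h11 : 2 * g * T * 1 ≤ 2 * g * T * (4 * g * (f + 1)) :=
      Nat.mul_le_mul_left _ (Nat.mul_pos (Nat.mul_pos (by norm_num) hg) (by omega))
    calc 2 * g * n ≤ 2 * g * T * 1 := by omega
      _ ≤ 2 * g * T * (4 * g * (f + 1)) := h11
      _ = 8 * g ^ 2 * (f + 1) * T := by ring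
  have h6 : 2 * g * (k * n) ≤ 8 * g ^ 2 * (f + 1) * T := by
    calc 2 * g * (k * n) ≤ 2 * g * (4 * g * (f + 1) * T) :=
            Nat.mul_le_mul_left _ hkn
      _ = 8 * g ^ 2 * (f + 1) * T := by ring
  have h7 : b ^ (n ^ 2) ≤ (K * W) ^ (8 * g ^ 2 * (f + 1) * T) := by
    calc b ^ (n ^ 2) ≤ _ := h4
      _ ≤ K ^ (8 * g ^ 2 * (f + 1) * T) * W ^ (8 * g ^ 2 * (f + 1) * T) :=
        Nat.mul_le_mul (Nat.pow_le_pow_right hK1 h5) (Nat.pow_le_pow_right hW h6)
      _ = _ := by rw [← mul_pow]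
  have h8 : 1 < b ^ (n ^ 2) := Nat.one_lt_pow (by positivity) (by omega)
  rcases Nat.lt_or_ge 1 (K * W) with h9 | h9
  · have h10 : 0 < g ^ 2 * (f + 1) * T := by
      have : 0 < T := by omega
      positivity
    have h11 : (K * W) ^ (8 * g ^ 2 * (f + 1) * T) < (K * W) ^ (16 * g ^ 2 * (f + 1) * T) :=
      Nat.pow_lt_pow_right h9 (by nlinarith)
    omega
  · have h10 : (K * W) ^ (8 * g ^ 2 * (f + 1) * T) ≤ 1 := pow_le_one' h9 _
    omega

/-- Sets with many elements and general machines. -/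
theorem many_general {A : Set ℕ} {h g T f K : ℕ} (hh : 2 ≤ h) (hg : 1 ≤ g) (hb : 2 ≤ b)
    (M : Machine b W) (σ : Equiv.Perm (Fin n)) (hA : ∀ d, M.Accepts σ T d → val d ∈ A)
    (hcount : b ^ n ≤ ((A ∩ Set.Iio (b ^ n)).ncard) ^ g)
    (hK : (A ∩ Set.Iio (b ^ n)).ncard ≤ K * {d | M.Accepts σ T d}.ncard)
    (hn : 2 * g * (f + 1) ≤ n) (hT : n ≤ T)
    (hcond : (K * T * W) ^ (32 * g ^ 2 * (f + 1) * T) ≤ b ^ (n ^ 2)) :
    ∃ m' < h * b ^ n, 2 ^ f ≤ rep A h m' := by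
  have hpos : 0 < 2 * g * (f + 1) := by positivity
  have hn2 : 2 ≤ n := by nlinarith [Nat.zero_le (g * f)]
  have hW : 1 ≤ W := by
    have := M.start.2
    omega
  have hl1 : 1 ≤ n / (2 * g * (f + 1)) := by
    rw [Nat.le_div_iff_mul_le hpos]
    omega
  exact rep_general (l := n / (2 * g * (f + 1))) hh (by omega) (by omega) hl1 M σ hA
    (arith_general hb hg hn hT hn2 hK hcount rfl hcond hW)

/-- Sets with many elements and oblivious machines. -/
theorem many_oblivious {A : Set ℕ} {h g T f K : ℕ} (hh : 2 ≤ h) (hg : 1 ≤ g) (hb : 2 ≤ b)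
    (M : Machine b W) (σ : Equiv.Perm (Fin n)) (hM : M.Oblivious)
    (hA : ∀ d, M.Accepts σ T d → val d ∈ A)
    (hcount : b ^ n ≤ ((A ∩ Set.Iio (b ^ n)).ncard) ^ g)
    (hK : (A ∩ Set.Iio (b ^ n)).ncard ≤ K * {d | M.Accepts σ T d}.ncard)
    (hn : 2 * g * (f + 1) ≤ n) (hT : n ≤ T)
    (hcond : (K * W) ^ (16 * g ^ 2 * (f + 1) * T) ≤ b ^ (n ^ 2)) :
    ∃ m' < h * b ^ n, 2 ^ f ≤ rep A h m' := by
  have hpos : 0 < 2 * g * (f + 1) := by positivity
  have hn2 : 2 ≤ n := by nlinarith [Nat.zero_le (g * f)]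
  have hW : 1 ≤ W := by
    have := M.start.2
    omega
  have hl1 : 1 ≤ n / (2 * g * (f + 1)) := by
    rw [Nat.le_div_iff_mul_le hpos]
    omega
  exact rep_oblivious (l := n / (2 * g * (f + 1))) hh (by omega) (by omega) hl1 hW M σ hA hM
    (arith_oblivious hb hg hn hT hK hcount rfl hcond hW)

/-- `M` decides in `T` steps which numbers below `b ^ n` belong to `A` -/
def Machine.Decides (M : Machine b W) (σ : Equiv.Perm (Fin n)) (T : ℕ) (A : Set ℕ) : Prop :=
  ∀ d : Fin n → Fin b, M.Accepts σ T d ↔ val d ∈ A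

theorem count_decides {A : Set ℕ} {T : ℕ} {M : Machine b W} {σ : Equiv.Perm (Fin n)}
    (h : M.Decides σ T A) :
    (A ∩ Set.Iio (b ^ n)).ncard ≤ 1 * {d | M.Accepts σ T d}.ncard := by
  rw [one_mul]
  have h1 : A ∩ Set.Iio (b ^ n) ⊆ val '' {d : Fin n → Fin b | M.Accepts σ T d} := by
    rintro x ⟨hx, hx'⟩
    obtain ⟨d, rfl⟩ := exists_val (b := b) (n := n) hx'
    exact ⟨d, (h d).2 hx, rfl⟩
  exact (Set.ncard_le_ncard h1 (Set.toFinite _)).trans (Set.ncard_image_le (Set.toFinite _))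

end Pool.Agent.U33.TS
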