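import Pool.Agent.U33.TS.Rep

/-!
Nondeterministic nonuniform one-tape machines on digit strings, signatures of computations with
respect to a partition of the tape into blocks, and mixing of computations with the same signature.
-/

set_option autoImplicit false

namespace Pool.Agent.U33.TS

open Finset

/-- A nondeterministic one-tape machine with state set `Fin W` for words over the alphabet `Fin b`.
`step t z q a q' a' z'` means: at time `t`, in state `q`, with the head on cell `z` reading the tape
letter `a`, the machine may enter the state `q'`, replace `a` by `a'` and move its head to the cell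
`z'`, which has to be `z - 1`, `z` or `z + 1`. Every dependence on the time and the place is allowed
and the tape alphabet is arbitrary. -/
structure Machine (b W : ℕ) where
  /-- the tape alphabet -/
  Letter : Type
  /-- the letter in the cells outside of the input -/
  blank : Letter
  /-- the letter by which a digit is written on the tape -/
  inp : Fin b → Letter
  /-- initial state -/
  start : Fin W
  /-- accepting states -/
  acc : Fin W → Prop
  /-- the transitions -/
  step : ℕ → ℤ → Fin W → Letter → Fin W → Letter → ℤ → Prop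
  near : ∀ t z q a q' a' z', step t z q a q' a' z' → |z' - z| ≤ 1

variable {b W n : ℕ}

/-- the initial tape: cell `z`, `0 ≤ z < n`, contains the digit number `σ z` -/
def Machine.input (M : Machine b W) (σ : Equiv.Perm (Fin n)) (d : Fin n → Fin b) (z : ℤ) :
    M.Letter :=
  if h : 0 ≤ z ∧ z.toNat < n then M.inp (d (σ ⟨z.toNat, h.2⟩)) else M.blank

/-- `q`, `p`, `c` are the states, head positions and tape contents at the times `0, ..., T` of an
accepting computation -/
def Machine.IsComp (M : Machine b W) (σ : Equiv.Perm (Fin n)) (T : ℕ) (d : Fin n → Fin b)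
    (q : ℕ → Fin W) (p : ℕ → ℤ) (c : ℕ → ℤ → M.Letter) : Prop :=
  q 0 = M.start ∧ p 0 = 0 ∧ c 0 = M.input σ d ∧ M.acc (q T) ∧
  ∀ t < T, M.step t (p t) (q t) (c t (p t)) (q (t + 1)) (c (t + 1) (p t)) (p (t + 1)) ∧
    ∀ z, z ≠ p t → c (t + 1) z = c t z

/-- `M` accepts in `T` steps the digit string `d`, written on the tape in the order `σ` -/
def Machine.Accepts (M : Machine b W) (σ : Equiv.Perm (Fin n)) (T : ℕ) (d : Fin n → Fin b) : Prop :=
  ∃ q p c, M.IsComp σ T d q p c

/-- the block of the cell `z` if the blocks are separated at the places `o` modulo `l` -/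
def blk (n l o : ℕ) (z : ℤ) : ℕ := (min z.toNat (n - 1) + (l - o)) / l

/-- the signature: times, states and places of all passages from one block to another -/
def sgn (l o n T : ℕ) (q : ℕ → Fin W) (p : ℕ → ℤ) : Finset (ℕ × Fin W × ℤ) :=
  ((range T).filter (fun t => blk n l o (p (t + 1)) ≠ blk n l o (p t))).image
    (fun t => (t, q (t + 1), p (t + 1)))

/-- the strings with an accepting computation of given signature -/
def Cls (M : Machine b W) (σ : Equiv.Perm (Fin n)) (T l o : ℕ) (s : Finset (ℕ × Fin W × ℤ)) :
    Set (Fin n → Fin b) :=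
  {d | ∃ q p c, M.IsComp σ T d q p c ∧ sgn l o n T q p = s}

theorem mem_sgn {l o n T : ℕ} {q : ℕ → Fin W} {p : ℕ → ℤ} {x : ℕ × Fin W × ℤ} :
    x ∈ sgn l o n T q p ↔ x.1 < T ∧ blk n l o (p (x.1 + 1)) ≠ blk n l o (p x.1) ∧
      x.2.1 = q (x.1 + 1) ∧ x.2.2 = p (x.1 + 1) := by
  unfold sgn
  rw [mem_image]
  constructor
  · rintro ⟨t, ht, rfl⟩
    rw [mem_filter, mem_range] at ht
    exact ⟨ht.1, ht.2, rfl, rfl⟩
  · rintro ⟨h1, h2, h3, h4⟩
    refine ⟨x.1, by rw [mem_filter, mem_range]; exact ⟨h1, h2⟩, ?_⟩
    ext
    · rfl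
    · rw [h3]
    · rw [h4]

/-- digits in the blocks -/
def dblk (n l o : ℕ) (σ : Equiv.Perm (Fin n)) (i : Fin n) : ℕ := blk n l o ((σ.symm i : ℕ) : ℤ)

theorem cls_mix (M : Machine b W) (σ : Equiv.Perm (Fin n)) (T l o : ℕ)
    (s : Finset (ℕ × Fin W × ℤ)) (x y : Fin n → Fin b) (hx : x ∈ Cls M σ T l o s)
    (hy : y ∈ Cls M σ T l o s) (j : ℕ) : mix (dblk n l o σ) j x y ∈ Cls M σ T l o s := by
  obtain ⟨q, p, c, ⟨hq0, hp0, hc0, hacc, hstep⟩, hs⟩ := hx
  obtain ⟨q', p', c', ⟨hq0', hp0', hc0', hacc', hstep'⟩, hs'⟩ := hy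
  -- passages agree
  have hcr : ∀ t < T, blk n l o (p (t + 1)) ≠ blk n l o (p t) →
      blk n l o (p' (t + 1)) ≠ blk n l o (p' t) ∧ q (t + 1) = q' (t + 1) ∧
      p (t + 1) = p' (t + 1) := by
    intro t ht h
    have h1 : (t, q (t + 1), p (t + 1)) ∈ sgn l o n T q p := mem_sgn.2 ⟨ht, h, rfl, rfl⟩
    rw [hs, ← hs', mem_sgn] at h1
    exact ⟨h1.2.1, h1.2.2.1, h1.2.2.2⟩
  have hcr' : ∀ t < T, blk n l o (p' (t + 1)) ≠ blk n l o (p' t) →
      blk n l o (p (t + 1)) ≠ blk n l o (p t) := by
    intro t ht h
    have h1 : (t, q' (t + 1), p' (t + 1)) ∈ sgn l o n T q' p' := mem_sgn.2 ⟨ht, h, rfl, rfl⟩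
    rw [hs', ← hs, mem_sgn] at h1
    exact h1.2.1
  have hblk : ∀ t, t ≤ T → blk n l o (p t) = blk n l o (p' t) := by
    intro t
    induction t with
    | zero => intro _; rw [hp0, hp0']
    | succ t ih =>
      intro ht
      by_cases h : blk n l o (p (t + 1)) ≠ blk n l o (p t)
      · rw [(hcr t (by omega) h).2.2]
      · have h2 : ¬ blk n l o (p' (t + 1)) ≠ blk n l o (p' t) := fun h3 =>
          h (hcr' t (by omega) h3)
        rw [not_not] at h h2
        rw [h, h2]
        exact ih (by omega)
  classical
  let Q : ℕ → Fin W := fun t => if blk n l o (p t) = j then q' t else q t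
  let P : ℕ → ℤ := fun t => if blk n l o (p t) = j then p' t else p t
  let C : ℕ → ℤ → M.Letter := fun t z => if blk n l o z = j then c' t z else c t z
  have hPblk : ∀ t, t ≤ T → blk n l o (P t) = blk n l o (p t) := by
    intro t ht
    by_cases h : blk n l o (p t) = j
    · simp only [P, if_pos h]
      exact (hblk t ht).symm
    · simp only [P, if_neg h]
  refine ⟨Q, P, C, ⟨?_, ?_, ?_, ?_, ?_⟩, ?_⟩
  · simp only [Q]; split_ifs
    · exact hq0'
    · exact hq0
  · simp only [P]; split_ifs
    · exact hp0'
    · exact hp0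
  · funext z
    simp only [C, hc0, hc0', Machine.input, mix, dblk]
    by_cases hz : 0 ≤ z ∧ z.toNat < n
    · rw [dif_pos hz, dif_pos hz, dif_pos hz]
      simp only [Equiv.symm_apply_apply]
      rw [Int.toNat_of_nonneg hz.1]
      split_ifs <;> rfl
    · rw [dif_neg hz, dif_neg hz, dif_neg hz]
      split_ifs <;> rfl
  · simp only [Q]; split_ifs
    · exact hacc'
    · exact hacc
  · intro t ht
    obtain ⟨h1, h2⟩ := hstep t ht
    obtain ⟨h1', h2'⟩ := hstep' t ht
    have hb := hblk t ht.le
    have hb1 := hblk (t + 1) ht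
    constructor
    · by_cases hj : blk n l o (p t) = j
      · have e1 : P t = p' t := if_pos hj
        have e2 : Q t = q' t := if_pos hj
        have e3 : ∀ u, C u (p' t) = c' u (p' t) := fun u => if_pos (hb ▸ hj)
        have e4 : P (t + 1) = p' (t + 1) ∧ Q (t + 1) = q' (t + 1) := by
          by_cases hj' : blk n l o (p (t + 1)) = j
          · exact ⟨if_pos hj', if_pos hj'⟩
          · obtain ⟨_, h3, h4⟩ := hcr t ht (by rw [hj]; exact hj')
            refine ⟨?_, ?_⟩
            · simp only [P, if_neg hj']; exact h4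
            · simp only [Q, if_neg hj']; exact h3
        rw [e1, e2, e3, e3, e4.1, e4.2]
        exact h1'
      · have e1 : P t = p t := if_neg hj
        have e2 : Q t = q t := if_neg hj
        have e3 : ∀ u, C u (p t) = c u (p t) := fun u => if_neg hj
        have e4 : P (t + 1) = p (t + 1) ∧ Q (t + 1) = q (t + 1) := by
          by_cases hj' : blk n l o (p (t + 1)) = j
          · obtain ⟨_, h3, h4⟩ := hcr t ht (by rw [hj']; exact fun h => hj h.symm)
            refine ⟨?_, ?_⟩
            · simp only [P, if_pos hj']; exact h4.symm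
            · simp only [Q, if_pos hj']; exact h3.symm
          · exact ⟨if_neg hj', if_neg hj'⟩
        rw [e1, e2, e3, e3, e4.1, e4.2]
        exact h1
    · intro z hz
      simp only [C]
      by_cases hzj : blk n l o z = j
      · rw [if_pos hzj, if_pos hzj]
        apply h2'
        intro h3
        by_cases hj : blk n l o (p t) = j
        · exact hz (by simp only [P, if_pos hj]; exact h3)
        · apply hj
          rw [hb, ← h3]
          exact hzj
      · rw [if_neg hzj, if_neg hzj]
        apply h2
        intro h3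
        by_cases hj : blk n l o (p t) = j
        · apply hzj
          rw [h3]
          exact hj
        · exact hz (by simp only [P, if_neg hj]; exact h3)
  · rw [← hs]
    ext ⟨t, r, z⟩
    rw [mem_sgn, mem_sgn]
    simp only
    constructor
    · rintro ⟨ht, h1, h2, h3⟩
      rw [hPblk t ht.le, hPblk (t + 1) ht] at h1
      obtain ⟨_, h4, h5⟩ := hcr t ht h1
      refine ⟨ht, h1, ?_, ?_⟩
      · rw [h2]; simp only [Q]; split_ifs
        · exact h4.symm
        · rfl
      · rw [h3]; simp only [P]; split_ifs
        · exact h5.symm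
        · rfl
    · rintro ⟨ht, h1, h2, h3⟩
      obtain ⟨_, h4, h5⟩ := hcr t ht h1
      refine ⟨ht, ?_, ?_, ?_⟩
      · rw [hPblk t ht.le, hPblk (t + 1) ht]
        exact h1
      · rw [h2]; simp only [Q]; split_ifs
        · exact h4
        · rfl
      · rw [h3]; simp only [P]; split_ifs
        · exact h5
        · rfl

end Pool.Agent.U33.TS
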