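import Pool.Agent.U33.TS.Cor

/-!
Time and space: the parts 1, 2, 3.
-/

set_option autoImplicit false

namespace Pool.Agent.U33.TS

open Filter

theorem partA (h : ℕ) (hh : 2 ≤ h) :
    -- 1. the tradeoff
    (∀ A : Set ℕ, IsAsymptoticBasis A h → ∃ X0 : ℕ, ∀ (b n W T f K : ℕ)
      (σ : Equiv.Perm (Fin n)) (M : Machine b W), 2 ≤ b → X0 ≤ b ^ n →
      (∀ d, M.Accepts σ T d → val d ∈ A) →
      (A ∩ Set.Iio (b ^ n)).ncard ≤ K * {d | M.Accepts σ T d}.ncard →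
      2 * (h + 1) * (f + 1) ≤ n → n ≤ T →
      ((K * T * W) ^ (32 * (h + 1) ^ 2 * (f + 1) * T) ≤ b ^ (n ^ 2) ∨
        (M.Oblivious ∧ (K * W) ^ (16 * (h + 1) ^ 2 * (f + 1) * T) ≤ b ^ (n ^ 2))) →
      ∃ m < h * b ^ n, 2 ^ f ≤ rep A h m) ∧
    -- 2. time times space below `(log N) ^ 2`
    (∀ (A : Set ℕ) (b : ℕ), IsAsymptoticBasis A h → 2 ≤ b →
      (∀ ε : ℝ, 0 < ε → ∃ᶠ n : ℕ in atTop, ∃ (W T : ℕ) (σ : Equiv.Perm (Fin n))
        (M : Machine b W), n ≤ T ∧ (T : ℝ) * Real.log (T * W) ≤ ε * (n : ℝ) ^ 2 ∧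
          M.Decides σ T A) →
      ∀ R : ℕ, ∃ m, R < rep A h m) ∧
    -- 3. boundedly many states and passes
    (∀ b W p : ℕ, 2 ≤ b → ∃ c : ℝ, 0 < c ∧ ∀ A : Set ℕ, IsAsymptoticBasis A h →
      (∃ᶠ n : ℕ in atTop, ∃ (T : ℕ) (σ : Equiv.Perm (Fin n)) (M : Machine b W),
        n ≤ T ∧ T ≤ p * n ∧ M.Oblivious ∧ M.Decides σ T A) →
      ∃ᶠ m : ℕ in atTop, (m : ℝ) ^ c ≤ (rep A h m : ℝ)) := by
  refine ⟨fun A hA => ?_, fun A b hA hb hdec R => ?_, fun b W p hb => ?_⟩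
  · obtain ⟨X0, hX0⟩ := basis_count hA
    refine ⟨X0, fun b n W T f K σ M hb hX hacc hK hn hT hcond => ?_⟩
    rcases hcond with hcond | ⟨hM, hcond⟩
    · exact many_general hh (by omega) hb M σ hacc (hX0 _ hX) hK hn hT hcond
    · exact many_oblivious hh (by omega) hb M σ hM hacc (hX0 _ hX) hK hn hT hcond
  · exact unbounded_of_tradeoff hh (by omega) hb (eventually_count hb hA) hdec R
  · obtain ⟨c, hc, h1⟩ := growth_of_oblivious (h := h) (g := h + 1) (b := b) (W := W) (p := p) hh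
      (by omega) hb
    exact ⟨c, hc, fun A hA hdec => h1 A (eventually_count hb hA) hdec⟩

end Pool.Agent.U33.TS
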