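import Pool.Agent.U33.TS.Transfer
import Pool.Agent.Results.MP_12a1af_nt.SetCircuits
import Pool.Agent.Results.MP_12a1af_nt.SharpFactorComplexity
import Pool.Agent.Results.MP_12a1af_nt.LinearComplexityGrowth
import Pool.Agent.Results.MP_12a1af_nt.AffineSystems
import Pool.Agent.Results.MP_12a1af_nt.CircuitTradeoff

/-!
Complexity: the parts 4 to 8.
-/

set_option autoImplicit false

namespace Pool.Agent.U33.TS

open Filter
open Pool.Agent.Results.MP_12a1af_nt.SetCircuits (ComputedIn)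
open Pool.Agent.Results.MP_12a1af_nt.AffineSystems (IsSolution)
open Pool.Agent.H966R2.Circ (Gate Acc Decomposable numVal)

/-- The factor complexity `p_A(L)`: the number of different subsets
`{i | 0 ≤ i < L, s + i ∈ A}` of `{0, ..., L - 1}`, for `s = 0, 1, 2, ...`. -/
noncomputable def complexity (A : Set ℕ) (L : ℕ) : ℕ :=
  (Set.range (fun s : ℕ => {i : Fin L | s + (i : ℕ) ∈ A})).ncard

theorem partB (h : ℕ) (hh : 2 ≤ h) :
    -- 1. computations with sets
    (∀ (A : Set ℕ) (K : ℕ), IsAsymptoticBasis A h → (∀ n, rep A h n ≤ K) →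
      ∀ᶠ X : ℕ in atTop, ∀ (M S : ℕ) (G : Fin M → Finset ℤ), (∀ k, ComputedIn S (G k)) →
        (∀ k, ∀ x ∈ G k, ∃ a ∈ A, (a : ℤ) = x) → (∀ a ∈ A, a < X → ∃ k, (a : ℤ) ∈ G k) →
        X ≤ 2 * (M * (16 * S * K ^ 2) ^ (4 * Nat.log 2 (2 * K))) ^ h) ∧
    -- 2. factor complexity
    (∀ (A : Set ℕ) (K : ℕ), IsAsymptoticBasis A h → (∀ n, rep A h n ≤ K) →
      ∀ γ : ℝ, 1 ≤ γ → γ ^ Nat.log 2 (2 * K) * ((h : ℝ) - 1) < h →
        ∃ᶠ L : ℕ in atTop, (L : ℝ) ^ γ < complexity A L) ∧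
    -- 3. linear factor complexity
    (∃ c : ℝ, 0 < c ∧ ∀ (A : Set ℕ) (C : ℝ), IsAsymptoticBasis A h → 2 ≤ C →
      (∀ L : ℕ, 1 ≤ L → (complexity A L : ℝ) ≤ C * L) →
      ∃ᶠ n : ℕ in atTop, (n : ℝ) ^ (c / Real.log C) ≤ rep A h n) ∧
    -- 4. affine systems
    (∀ (ι : Type) [Fintype ι] (E : Finset (ι × ι × ℕ × ℤ)) (F : ι → Finset ℕ) (A : ι → Set ℕ),
      (∀ i j q d, (i, j, q, d) ∈ E → 2 ≤ q) → IsSolution E F A →
      ∀ I : Set ι, IsAsymptoticBasis (⋃ i ∈ I, A i) h →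
        ∃ c : ℝ, 0 < c ∧ ∃ᶠ n : ℕ in atTop, (n : ℝ) ^ c ≤ rep (⋃ i ∈ I, A i) h n) ∧
    -- 5. decomposable circuits
    (∀ (A : Set ℕ) (b : ℕ), IsAsymptoticBasis A h → 2 ≤ b → ∀ᶠ n : ℕ in atTop,
      (b : ℝ) ^ ((n : ℝ) / (h + 1)) ≤ ((A ∩ Set.Iio (b ^ n)).ncard : ℝ) ∧
      ∀ (ι : Type) [Fintype ι] (C : ι → Gate n b ι) (g : ι), Decomposable C →
        (∀ w, Acc C w g → numVal w ∈ A) →
        (b : ℝ) ^ ((n : ℝ) / (h + 1)) ≤ ({w | Acc C w g}.ncard : ℝ) →
        ∃ x, (2 : ℝ) ^ ((n : ℝ) / (24 * (h + 1) ^ 2 *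
          (1 + Real.logb b (Fintype.card ι + 1)))) / 2 ≤ rep A h x) := by
  have hh0 : (0 : ℝ) < h := by exact_mod_cast (by omega : 0 < h)
  have hh2 : (2 : ℝ) ≤ h := by exact_mod_cast hh
  refine ⟨?_, ?_, ?_, ?_, ?_⟩
  · intro A K hA hK
    obtain ⟨X0, hX0⟩ := basis_count' hA
    filter_upwards [eventually_ge_atTop X0] with X hX
    intro M S G hG hGA hcov
    refine (hX0 X hX).trans (Nat.mul_le_mul_left _ (Nat.pow_le_pow_left ?_ h))
    have hpairs : ∀ n, {p : ℕ × ℕ | p.1 ∈ A ∧ p.2 ∈ A ∧ p.1 + p.2 = n}.ncard ≤ 2 * K :=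
      pairs_bounded hh hA hK
    have hfin : (A ∩ Set.Iio X).Finite := (Set.finite_Iio X).subset fun a ha => ha.2
    rw [Set.ncard_eq_toFinset_card _ hfin]
    have h1 : hfin.toFinset.image (fun a : ℕ => (a : ℤ)) ⊆
        (Finset.univ : Finset (Fin M)).biUnion G := by
      intro x hx
      rw [Finset.mem_image] at hx
      obtain ⟨a, ha, rfl⟩ := hx
      rw [Set.Finite.mem_toFinset] at ha
      obtain ⟨k, hk⟩ := hcov a ha.1 ha.2
      rw [Finset.mem_biUnion]
      exact ⟨k, Finset.mem_univ k, hk⟩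
    have h2 := Finset.card_le_card h1
    rw [Finset.card_image_of_injective _ (fun i j hij => by exact_mod_cast hij)] at h2
    refine h2.trans (Finset.card_biUnion_le.trans ?_)
    refine (Finset.sum_le_card_nsmul _ _ ((16 * S * K ^ 2) ^ (4 * Nat.log 2 (2 * K))) ?_).trans ?_
    · intro k _
      have h3 := Pool.Agent.Results.MP_12a1af_nt.SetCircuits.subset_card_le hpairs (hG k) (hGA k)
      have e : 4 * S * (2 * K) ^ 2 = 16 * S * K ^ 2 := by ring
      rwa [e] at h3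
    · simp
  · intro A K hA hK γ hγ hγ2
    -- choose `α < 1 / h`
    have hpos : 0 < γ ^ Nat.log 2 (2 * K) := by positivity
    have h1 : 1 - 1 / γ ^ Nat.log 2 (2 * K) < 1 / h := by
      have h2 : ((h : ℝ) - 1) / h < 1 / γ ^ Nat.log 2 (2 * K) := by
        rw [div_lt_div_iff₀ hh0 hpos]
        linarith
      have h3 : ((h : ℝ) - 1) / h = 1 - 1 / h := by field_simp
      linarith
    obtain ⟨α, hα1, hα2⟩ := exists_between h1
    refine Pool.Agent.Results.MP_12a1af_nt.SharpFactorComplexity.result.1 A A (2 * K) α γ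
      le_rfl (pairs_bounded hh hA hK) (basis_freq hh hA hα2).frequently hγ ?_
    have h2 : 1 - α < 1 / γ ^ Nat.log 2 (2 * K) := by linarith
    rw [lt_div_iff₀ hpos] at h2
    linarith
  · obtain ⟨c, hc, h1⟩ := Pool.Agent.Results.MP_12a1af_nt.LinearComplexityGrowth.result.2.1
      (1 / (2 * h)) (by positivity)
    refine ⟨c / 2, by positivity, fun A C hA hC hp => ?_⟩
    have hlogC : 0 < Real.log C := Real.log_pos (by linarith)
    have h2 := h1 A A (fun _ => C) le_rfl monotone_const (fun _ => hC)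
      (fun L hL => by rw [mul_comm]; exact hp L hL)
      (basis_freq hh hA (by
        rw [div_lt_div_iff₀ (by positivity) hh0]
        linarith)).frequently
    -- `∃ᶠ N, ∃ n < N, N ^ (c / log C) ≤ pairs A n`
    have h3 : ∃ᶠ n : ℕ in atTop, (n : ℝ) ^ (c / Real.log C) ≤ (pairs A n : ℝ) := by
      rw [frequently_atTop]
      intro N0
      have hlim : ∀ᶠ N : ℕ in atTop, ((∑ m ∈ Finset.range N0, pairs A m : ℕ) : ℝ) <
          (N : ℝ) ^ (c / Real.log C) :=
        ((tendsto_rpow_atTop (by positivity : 0 < c / Real.log C)).comp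
          tendsto_natCast_atTop_atTop).eventually_gt_atTop _
      obtain ⟨N, ⟨n, hn, hN⟩, hN2⟩ := (h2.and_eventually hlim).exists
      refine ⟨n, ?_, ?_⟩
      · by_contra hlt
        have h4 : pairs A n ≤ ∑ m ∈ Finset.range N0, pairs A m :=
          Finset.single_le_sum (f := fun m => pairs A m) (fun _ _ => Nat.zero_le _)
            (Finset.mem_range.2 (by omega))
        have h5 : (pairs A n : ℝ) ≤ ((∑ m ∈ Finset.range N0, pairs A m : ℕ) : ℝ) := by
          exact_mod_cast h4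
        exact absurd hN (not_le.2 (lt_of_le_of_lt h5 hN2))
      · refine le_trans ?_ hN
        exact Real.rpow_le_rpow (Nat.cast_nonneg _) (by exact_mod_cast hn.le) (by positivity)
    refine rep_growth hh hA (by positivity) h3 ?_
    rw [div_div, div_lt_div_iff₀ (by positivity) hlogC]
    nlinarith [mul_pos hc hlogC]
  · intro ι _ E F A hE hA I hI
    obtain ⟨c, hc, h1⟩ := (Pool.Agent.Results.MP_12a1af_nt.AffineSystems.result E F A hE hA).2 I
      (Or.inl ⟨1 / (2 * h), by positivity, by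
        intro N₀
        have h2 := (basis_freq hh hI (α := 1 / (2 * h)) (by
          rw [div_lt_div_iff₀ (by positivity) hh0]
          linarith)).and (eventually_ge_atTop N₀)
        obtain ⟨N, hN1, hN2⟩ := h2.exists
        refine ⟨N, hN2, hN1.trans ?_⟩
        exact_mod_cast Set.ncard_le_ncard (Set.inter_subset_inter_right _ Set.Iio_subset_Iic_self)
          ((Set.finite_Iic N).subset fun a ha => ha.2)⟩)
    have h2 : ∃ᶠ n : ℕ in atTop, (n : ℝ) ^ c ≤ (pairs (⋃ i ∈ I, A i) n : ℝ) := by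
      rw [frequently_atTop]
      exact h1
    exact ⟨c / 2, by positivity, rep_growth hh hI hc h2 (by linarith)⟩
  · intro A b hA hb
    obtain ⟨a, ha⟩ := basis_nonempty hh hA
    filter_upwards [Pool.Agent.H966R2.Circ.thick_tradeoff (A := A) (h := h) (by omega)
      (by norm_num : (0 : ℝ) < 1 / 2) (basis_c hh hA) hb] with n hn
    refine ⟨hn.1, fun ι _ C g hC hacc hN => ?_⟩
    obtain ⟨x, _, h1⟩ := hn.2 ι C g hC hacc hN
    refine ⟨x + (h - 2) * a, ?_⟩
    have h2 : (Pool.Agent.H966R2.Circ.repCount A x : ℝ) ≤ 2 * rep A h (x + (h - 2) * a) := by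
      exact_mod_cast pairs_le hh ha x
    linarith

end Pool.Agent.U33.TS
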